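import Pool.Agent.PebAlg.M08
import Pool.Agent.PebAlg.M13
import Pool.Agent.Lib.PolyTime.ToTM2

/-!
# Greedy isomorphism with a reference graph

`R` is a graph on `Fin n` in a fixed order.  The input graph `G` is compared with `R`: vertex number
`i` of `R` is sent to the first unused vertex of `G` of the same degree and with the same adjacencies
to the images of the vertices `j < i`.  If this never gets stuck, then the graphs are isomorphic.
Conversely, if `R` is homogeneous along its order (`Hom`), then the search never gets stuck on an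
isomorphic copy of `R`.
-/

set_option autoImplicit false

namespace Pool.Agent.CPTP

open Pool.Agent.Lib.PT
open Pool.Agent.PebAlg (code side adj deg side_code adj_code deg_code)

/-! ### The algorithm -/

/-- may `x` be the next image? -/
def ok (r w : List Bool) (img : List ℕ) (x : ℕ) : Bool :=
  !(img.any (fun y => decide (y = x))) && (decide (deg w x = deg r img.length) &&
    (List.range img.length).all (fun j => adj w x (img.getD j 0) == adj r img.length j))

/-- extend the list of the images by the first possible vertex -/
def step (r w : List Bool) (img : List ℕ) : List ℕ :=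
  img ++ (((List.range (side w)).filter (ok r w img)).take 1)

/-- the images found -/
def greedy (r w : List Bool) : List ℕ := (step r w)^[side w] []

/-- does the search succeed? -/
def test (r w : List Bool) : Bool :=
  decide (side r = side w) && decide ((greedy r w).length = side w)

/-- try all reference graphs -/
def decider (c : ℕ → List Bool) (w : List Bool) : List Bool :=
  [(List.range (side w + 1)).any (fun l => test (c l) w)]

/-! ### Running time -/

section time

variable {α : Type*} [Enc α]

theorem poly_deg {f : α → List Bool} {v : α → ℕ} (hf : PolyTime f) (hv : PolyTime v) :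
    PolyTime (fun x => deg (f x) (v x)) := by
  unfold deg
  exact (PolyTime.filter (f := fun (x : α) (u : ℕ) => adj (f x) u (v x))
    (Pool.Agent.PebAlg.polyTime_side hf).range
    (Pool.Agent.PebAlg.polyTime_adj (hf.comp PolyTime.id.fst) PolyTime.id.snd
      (hv.comp PolyTime.id.fst))).length

theorem poly_ok {r w : α → List Bool} {img : α → List ℕ} {x : α → ℕ} (hr : PolyTime r)
    (hw : PolyTime w) (hi : PolyTime img) (hx : PolyTime x) :
    PolyTime (fun a => ok (r a) (w a) (img a) (x a)) := by
  unfold ok
  refine (PolyTime.not ?_).and (((poly_deg hw hx).eqNat (poly_deg hr hi.length)).and ?_)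
  · exact PolyTime.any (f := fun (a : α) (y : ℕ) => decide (y = x a)) hi
      (PolyTime.id.snd.eqNat (hx.comp PolyTime.id.fst))
  · refine PolyTime.all (f := fun (a : α) (j : ℕ) =>
      adj (w a) (x a) ((img a).getD j 0) == adj (r a) (img a).length j) hi.length.range ?_
    exact (Pool.Agent.PebAlg.polyTime_adj (hw.comp PolyTime.id.fst) (hx.comp PolyTime.id.fst)
      (PolyTime.getD (hi.comp PolyTime.id.fst) PolyTime.id.snd (PolyTime.const 0))).beqBool
      (Pool.Agent.PebAlg.polyTime_adj (hr.comp PolyTime.id.fst)
        (hi.comp PolyTime.id.fst).length PolyTime.id.snd)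

theorem poly_step {r w : α → List Bool} {img : α → List ℕ} (hr : PolyTime r)
    (hw : PolyTime w) (hi : PolyTime img) :
    PolyTime (fun a => step (r a) (w a) (img a)) := by
  unfold step
  exact hi.append (PolyTime.take (PolyTime.const 1)
    (PolyTime.filter (f := fun (a : α) (x : ℕ) => ok (r a) (w a) (img a) x)
      (Pool.Agent.PebAlg.polyTime_side hw).range
      (poly_ok (hr.comp PolyTime.id.fst) (hw.comp PolyTime.id.fst) (hi.comp PolyTime.id.fst)
        PolyTime.id.snd)))

theorem poly_greedy {r w : α → List Bool} (hr : PolyTime r) (hw : PolyTime w) :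
    PolyTime (fun a => greedy (r a) (w a)) := by
  unfold greedy
  refine PolyTime.iterate_add (f := fun (a : α) (s : List ℕ) => step (r a) (w a) s)
    (Pool.Agent.PebAlg.polyTime_side hw) (PolyTime.const ([] : List ℕ))
    (poly_step (hr.comp PolyTime.id.fst) (hw.comp PolyTime.id.fst) PolyTime.id.snd) ?_
  obtain ⟨p, hp⟩ := (Pool.Agent.PebAlg.polyTime_side hw).sz_le
  refine ⟨p + 2, fun a x => ?_⟩
  have h1 : sz (((List.range (side (w a))).filter (ok (r a) (w a) x)).take 1) ≤
      sz (side (w a)) + 2 := by
    rcases h : (List.range (side (w a))).filter (ok (r a) (w a) x) with _ | ⟨y, t⟩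
    · simp
    · have hy : y ∈ (List.range (side (w a))).filter (ok (r a) (w a) x) := by
        rw [h]; exact List.mem_cons_self
      have := List.mem_range.1 (List.mem_filter.1 hy).1
      simp only [List.take_succ_cons, List.take_zero, sz_list_cons, sz_list_nil, sz_nat]
      omega
  unfold step
  have h2 := sz_append_le x (((List.range (side (w a))).filter (ok (r a) (w a) x)).take 1)
  have h3 := hp a
  simp only [Polynomial.eval_add, Polynomial.eval_ofNat]
  omega

theorem poly_test {r w : α → List Bool} (hr : PolyTime r) (hw : PolyTime w) :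
    PolyTime (fun a => test (r a) (w a)) := by
  unfold test
  exact ((Pool.Agent.PebAlg.polyTime_side hr).eqNat (Pool.Agent.PebAlg.polyTime_side hw)).and
    ((poly_greedy hr hw).length.eqNat (Pool.Agent.PebAlg.polyTime_side hw))

theorem poly_decider {c : ℕ → List Bool} (hc : PolyTime c) :
    PolyTime (fun w : List Bool => decider c w) := by
  unfold decider
  refine PolyTime.cons ?_ (PolyTime.const [])
  exact PolyTime.any (f := fun (w : List Bool) (l : ℕ) => test (c l) w)
    (Pool.Agent.PebAlg.polyTime_side PolyTime.id).succ.range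
    (poly_test (hc.comp PolyTime.id.snd) PolyTime.id.fst)

end time

/-! ### Correctness -/

open Classical in
/-- the code of a graph: its adjacency matrix, row by row -/
noncomputable def gcode {n : ℕ} (G : SimpleGraph (Fin n)) : List Bool :=
  code (fun i j => decide (G.Adj i j))

open Classical in
/-- degree -/
noncomputable def dg {V : Type} [Fintype V] (G : SimpleGraph V) (v : V) : ℕ :=
  (Finset.univ.filter (fun u => G.Adj u v)).card

theorem dg_iso {V W : Type} [Fintype V] [Fintype W] {G : SimpleGraph V} {H : SimpleGraph W}
    (e : G ≃g H) (v : V) : dg H (e v) = dg G v := by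
  classical
  unfold dg
  refine (Finset.card_bij (fun u _ => e u) ?_ ?_ ?_).symm
  · intro u hu
    simp only [Finset.mem_filter, Finset.mem_univ, true_and] at hu ⊢
    exact e.map_adj_iff.2 hu
  · intro a _ b _ h
    exact e.injective h
  · intro b hb
    simp only [Finset.mem_filter, Finset.mem_univ, true_and] at hb
    refine ⟨e.symm b, ?_, e.apply_symm_apply b⟩
    simp only [Finset.mem_filter, Finset.mem_univ, true_and]
    rw [← e.map_adj_iff, e.apply_symm_apply]
    exact hb

/-- homogeneity along the order: a vertex `w`, not among the first ones, with the degree and the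
adjacencies of `i` to the vertices before `i`, is the image of `i` under an automorphism that fixes
all vertices before `i` -/
def Hom {n : ℕ} (R : SimpleGraph (Fin n)) : Prop :=
  ∀ i w : Fin n, (∀ j < i, w ≠ j) → dg R w = dg R i → (∀ j < i, (R.Adj w j ↔ R.Adj i j)) →
    ∃ e : R ≃g R, (∀ j < i, e j = j) ∧ e i = w

variable {n : ℕ}

theorem side_g (G : SimpleGraph (Fin n)) : side (gcode G) = n := side_code _

theorem adj_g (G : SimpleGraph (Fin n)) (i j : Fin n) :
    adj (gcode G) i j = true ↔ G.Adj i j := by
  unfold gcode
  rw [adj_code]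
  simp

theorem deg_g (G : SimpleGraph (Fin n)) (v : Fin n) : deg (gcode G) v = dg G v := by
  unfold gcode dg
  rw [deg_code]
  congr 1
  ext u
  simp

theorem ok_iff {R G : SimpleGraph (Fin n)} {img : List ℕ} {i : Fin n} (hi : img.length = i)
    (φ : Fin n → Fin n) (hφ : ∀ j : Fin n, j < i → img.getD j 0 = φ j) (x : Fin n) :
    ok (gcode R) (gcode G) img x = true ↔ (∀ j : Fin n, j < i → x ≠ φ j) ∧ dg G x = dg R i ∧
      ∀ j : Fin n, j < i → (G.Adj x (φ j) ↔ R.Adj i j) := by
  unfold ok
  rw [Bool.and_eq_true, Bool.and_eq_true, hi, deg_g, deg_g, decide_eq_true_eq]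
  refine and_congr ?_ (and_congr Iff.rfl ?_)
  · rw [Bool.not_eq_true', List.any_eq_false]
    constructor
    · intro h j hj e
      have h1 : (φ j : ℕ) ∈ img := by
        rw [← hφ j hj, List.getD_eq_getElem _ _ (by rw [hi]; exact hj)]
        exact List.getElem_mem _
      exact h _ h1 (by simp [e])
    · intro h y hy
      obtain ⟨j, hj, e⟩ := List.getElem_of_mem hy
      have hj' : j < (i : ℕ) := by rw [← hi]; exact hj
      have h1 := hφ ⟨j, hj'.trans i.isLt⟩ hj'
      have h2 := h ⟨j, hj'.trans i.isLt⟩ hj'
      rw [List.getD_eq_getElem _ _ hj] at h1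
      simp only [decide_eq_true_eq]
      intro h3
      apply h2
      apply Fin.ext
      rw [← h1, ← h3, ← e]
  · rw [List.all_eq_true]
    constructor
    · intro h j hj
      have h1 := h j (List.mem_range.2 hj)
      rw [hφ j hj] at h1
      rw [beq_iff_eq] at h1
      rw [← adj_g, ← adj_g, h1]
    · intro h j hj
      have hj' : j < (i : ℕ) := List.mem_range.1 hj
      have h1 := h ⟨j, hj'.trans i.isLt⟩ hj'
      have h2 := hφ ⟨j, hj'.trans i.isLt⟩ hj'
      simp only at h2
      rw [h2, beq_iff_eq, Bool.eq_iff_iff]
      rw [← adj_g, ← adj_g] at h1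
      exact h1

theorem step_cases (r w : List Bool) (img : List ℕ) :
    (step r w img = img ∧ ∀ x < side w, ok r w img x = false) ∨
      ∃ x < side w, ok r w img x = true ∧ step r w img = img ++ [x] := by
  unfold step
  rcases h : (List.range (side w)).filter (ok r w img) with _ | ⟨y, t⟩
  · left
    refine ⟨by simp, fun x hx => ?_⟩
    rw [List.filter_eq_nil_iff] at h
    simpa using h x (List.mem_range.2 hx)
  · right
    have hy : y ∈ (List.range (side w)).filter (ok r w img) := by
      rw [h]; exact List.mem_cons_self
    obtain ⟨h1, h2⟩ := List.mem_filter.1 hy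
    exact ⟨y, List.mem_range.1 h1, h2, by simp⟩

/-- the list of images of a partial isomorphism -/
structure Part (R G : SimpleGraph (Fin n)) (img : List ℕ) : Prop where
  len : img.length ≤ n
  ex : ∃ φ : Fin n → Fin n, (∀ j : Fin n, (j : ℕ) < img.length → img.getD j 0 = φ j) ∧
    (∀ j k : Fin n, (j : ℕ) < img.length → (k : ℕ) < j → φ j ≠ φ k ∧
      (G.Adj (φ j) (φ k) ↔ R.Adj j k))

theorem Part.step {R G : SimpleGraph (Fin n)} {img : List ℕ} (h : Part R G img)
    (hl : img.length < n) : Part R G (step (gcode R) (gcode G) img) := by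
  rcases step_cases (gcode R) (gcode G) img with ⟨h1, _⟩ | ⟨x, hx, h1, h2⟩
  · rw [h1]; exact h
  · obtain ⟨φ, h3, h4⟩ := h.ex
    rw [side_g] at hx
    rw [h2]
    let i : Fin n := ⟨img.length, hl⟩
    have h5 := (ok_iff (R := R) (G := G) (i := i) rfl φ (fun j hj => h3 j hj) ⟨x, hx⟩).1 h1
    refine ⟨by simp; omega, fun j => if j = i then ⟨x, hx⟩ else φ j, ?_, ?_⟩
    · intro j hj
      rw [List.length_append, List.length_singleton] at hj
      by_cases e : j = i
      · simp only [e, if_true]
        rw [List.getD_append_right _ _ _ _ (le_refl _)]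
        simp
      · have : (j : ℕ) < img.length := by
          have : (j : ℕ) ≠ img.length := fun e' => e (Fin.ext e')
          omega
        simp only [e, if_false]
        rw [List.getD_append _ _ _ _ this, h3 j this]
    · intro j k hj hk
      rw [List.length_append, List.length_singleton] at hj
      have hki : k ≠ i := by
        intro e
        rw [e] at hk
        have : img.length < (j : ℕ) := hk
        omega
      have hkl : (k : ℕ) < img.length := by omega
      by_cases e : j = i
      · simp only [e, if_true, hki, if_false]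
        exact ⟨h5.1 k hkl, h5.2.2 k hkl⟩
      · have : (j : ℕ) < img.length := by
          have : (j : ℕ) ≠ img.length := fun e' => e (Fin.ext e')
          omega
        simp only [e, hki, if_false]
        exact h4 j k this hk

theorem part_iter (R G : SimpleGraph (Fin n)) : ∀ i : ℕ, i ≤ n →
    Part R G ((step (gcode R) (gcode G))^[i] []) ∧
      ((step (gcode R) (gcode G))^[i] []).length ≤ i := by
  intro i
  induction i with
  | zero => exact fun _ => ⟨⟨Nat.zero_le _, fun j => j, by simp, by simp⟩, le_refl _⟩
  | succ i ih =>
    intro hi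
    obtain ⟨h1, h2⟩ := ih (by omega)
    rw [Function.iterate_succ_apply']
    refine ⟨h1.step (by omega), ?_⟩
    rcases step_cases (gcode R) (gcode G) ((step (gcode R) (gcode G))^[i] []) with
      ⟨h3, _⟩ | ⟨x, _, _, h3⟩
    · rw [h3]; omega
    · rw [h3, List.length_append, List.length_singleton]; omega

theorem sound {R G : SimpleGraph (Fin n)} (h : (greedy (gcode R) (gcode G)).length = n) :
    Nonempty (R ≃g G) := by
  unfold greedy at h
  rw [side_g] at h
  obtain ⟨h1, _⟩ := part_iter R G n (le_refl n)
  obtain ⟨φ, h3, h4⟩ := h1.ex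
  have hinj : Function.Injective φ := by
    intro j k e
    by_contra hne
    rcases lt_or_gt_of_ne hne with hlt | hlt
    · exact (h4 k j (by rw [h]; exact k.isLt) hlt).1 e.symm
    · exact (h4 j k (by rw [h]; exact j.isLt) hlt).1 e
  have hbij : Function.Bijective φ := Finite.injective_iff_bijective.1 hinj
  refine ⟨⟨Equiv.ofBijective φ hbij, ?_⟩⟩
  intro j k
  simp only [Equiv.ofBijective_apply]
  rcases lt_trichotomy j k with hlt | heq | hlt
  · have := (h4 k j (by rw [h]; exact k.isLt) hlt).2
    rw [G.adj_comm, R.adj_comm]
    exact this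
  · rw [heq]
    simp
  · exact (h4 j k (by rw [h]; exact j.isLt) hlt).2

theorem complete {R G : SimpleGraph (Fin n)} (hom : Hom R) (e₀ : R ≃g G) : ∀ i : ℕ, i ≤ n →
    ((step (gcode R) (gcode G))^[i] []).length = i ∧ ∃ e : R ≃g G, ∀ j : Fin n, (j : ℕ) < i →
      ((step (gcode R) (gcode G))^[i] []).getD j 0 = e j := by
  intro i
  induction i with
  | zero => exact fun _ => ⟨rfl, e₀, by simp⟩
  | succ i ih =>
    intro hi
    obtain ⟨h1, e, h2⟩ := ih (by omega)
    rw [Function.iterate_succ_apply']
    generalize (step (gcode R) (gcode G))^[i] [] = img at h1 h2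
    let i' : Fin n := ⟨i, hi⟩
    have key := ok_iff (R := R) (G := G) (img := img) (i := i') h1 (fun j => e j)
      (fun j hj => h2 j hj)
    have hok : ok (gcode R) (gcode G) img (e i') = true := by
      rw [key]
      refine ⟨?_, dg_iso e i', ?_⟩
      · intro j hj hh
        exact absurd (e.injective hh) (ne_of_gt hj)
      · intro j _
        exact e.map_adj_iff
    rcases step_cases (gcode R) (gcode G) img with ⟨_, h3⟩ | ⟨x, hx, h3, h4⟩
    · have := h3 (e i') (by rw [side_g]; exact (e i').isLt)
      rw [hok] at this
      exact absurd this (by simp)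
    · rw [side_g] at hx
      rw [h4]
      refine ⟨by rw [List.length_append, List.length_singleton, h1], ?_⟩
      obtain ⟨h5, h6, h7⟩ := (key ⟨x, hx⟩).1 h3
      obtain ⟨a, ha, ha'⟩ := hom i' (e.symm ⟨x, hx⟩) (by
        intro j hj hh
        apply h5 j hj
        rw [← hh, e.apply_symm_apply]) (by
        rw [← dg_iso e, e.apply_symm_apply, h6]) (by
        intro j hj
        rw [← e.map_adj_iff, e.apply_symm_apply]
        exact h7 j hj)
      refine ⟨a.trans e, fun j hj => ?_⟩
      show (img ++ [x]).getD j 0 = ((e (a j) : Fin n) : ℕ)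
      rcases Nat.lt_succ_iff_lt_or_eq.1 hj with hj | hj
      · rw [List.getD_append _ _ _ _ (by omega), h2 j hj, ha j hj]
      · have : j = i' := Fin.ext hj
        rw [this, ha', e.apply_symm_apply, List.getD_append_right _ _ _ _ (by omega)]
        have : (i' : ℕ) - img.length = 0 := by
          show i - img.length = 0
          omega
        rw [this]
        rfl

theorem test_iff {m : ℕ} {R : SimpleGraph (Fin m)} (hom : Hom R) (G : SimpleGraph (Fin n)) :
    test (gcode R) (gcode G) = true ↔ Nonempty (R ≃g G) := by
  unfold test
  rw [Bool.and_eq_true, decide_eq_true_eq, decide_eq_true_eq, side_g, side_g]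
  constructor
  · rintro ⟨h1, h2⟩
    subst h1
    exact sound h2
  · rintro ⟨e⟩
    have h1 : m = n := by
      have := Fintype.card_congr e.toEquiv
      simpa using this
    subst h1
    refine ⟨rfl, ?_⟩
    unfold greedy
    rw [side_g]
    exact (complete hom e m (le_refl m)).1

/-- **The greedy algorithm decides isomorphism with a homogeneous reference family.** -/
theorem greedy_ptime (N : ℕ → ℕ) (R : ∀ l, SimpleGraph (Fin (N l))) (hN : ∀ l, l ≤ N l)
    (hc : PolyTime (fun l : ℕ => gcode (R l))) (hom : ∀ l, Hom (R l)) :
    ∃ A : List Bool → List Bool, Nonempty (Turing.TM2ComputableInPolyTime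
      (fun w : List Bool => w) (fun w : List Bool => w) A) ∧
      (∀ w, A w = [true] ∨ A w = [false]) ∧
      ∀ (n : ℕ) (G : SimpleGraph (Fin n)), A (gcode G) = [true] ↔ ∃ l, Nonempty (R l ≃g G) := by
  refine ⟨fun w => decider (fun l => gcode (R l)) w,
    Pool.Agent.Lib.PT.ToTM2.polyTime_toTM2 _ (poly_decider hc), ?_, ?_⟩
  · intro w
    simp only [decider]
    cases (List.range (side w + 1)).any (fun l => test (gcode (R l)) w) <;> simp
  · intro n G
    simp only [decider, List.cons.injEq, and_true]
    rw [List.any_eq_true]
    constructor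
    · rintro ⟨l, _, hl⟩
      exact ⟨l, (test_iff (hom l) G).1 hl⟩
    · rintro ⟨l, hl⟩
      refine ⟨l, ?_, (test_iff (hom l) G).2 hl⟩
      obtain ⟨e⟩ := hl
      have h1 : N l = n := by
        have := Fintype.card_congr e.toEquiv
        simpa using this
      have := hN l
      rw [List.mem_range, side_g]
      omega

end Pool.Agent.CPTP
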